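import Mathlib
import Pool.Agent.Lib.MP_45a79b_co.Main

namespace Pool.Agent.Results.MP_45a79b_co.NotCyclic

open MeasureTheory

/-- The moment curve `t ↦ (t, t ^ 2, …, t ^ d)` in `ℝ ^ d`. -/
noncomputable def momentCurve (d : ℕ) (t : ℝ) : EuclideanSpace ℝ (Fin d) :=
  WithLp.toLp 2 fun i : Fin d => t ^ (i.val + 1)

/-- The faces of `P` (the empty set and the sets of maximisers on `P` of linear functionals, among
them `P` itself), ordered by inclusion. -/
abbrev FaceLattice {d : ℕ} (P : Set (EuclideanSpace ℝ (Fin d))) :=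
  {F : Set (EuclideanSpace ℝ (Fin d)) // IsExposed ℝ P F}

/-- `P` has the same face lattice as the convex hull of finitely many distinct points of the
moment curve. -/
def IsCyclic {d : ℕ} (P : Set (EuclideanSpace ℝ (Fin d))) : Prop :=
  ∃ T : Finset ℝ, Nonempty
    (FaceLattice P ≃o FaceLattice (convexHull ℝ (momentCurve d '' (T : Set ℝ))))

/-- The family `𝒫_d(n)`: convex hulls of at most `n` points of the unit sphere of `ℝ ^ d`. -/
def Inscribed (d n : ℕ) : Set (Set (EuclideanSpace ℝ (Fin d))) :=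
  {P | ∃ X : Finset (EuclideanSpace ℝ (Fin d)), X.card ≤ n ∧ (∀ x ∈ X, ‖x‖ = 1) ∧
    P = convexHull ℝ (X : Set (EuclideanSpace ℝ (Fin d)))}

/-- For even `d ≥ 4`, no polytope of maximal volume in `𝒫_d(d + 3)` is cyclic. -/
theorem result (d : ℕ) (hev : Even d) (hd : 4 ≤ d) (P : Set (EuclideanSpace ℝ (Fin d)))
    (hP : P ∈ Inscribed d (d + 3))
    (hmax : ∀ Q ∈ Inscribed d (d + 3), volume Q ≤ volume P) : ¬ IsCyclic P := by
  obtain ⟨X, hcard, hX, rfl⟩ := hP
  rintro ⟨T, ⟨Φ⟩⟩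
  exact Pool.Agent.Lib.MP_45a79b_co.not_cyclic hev hd X hX hcard
    (fun Y hY hc => hmax _ ⟨Y, hc, hY, rfl⟩) T Φ

end Pool.Agent.Results.MP_45a79b_co.NotCyclic
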